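import Pool.Agent.R218.Adj.Limit
import Pool.Agent.R218.Adj.Adjoint

/-!
# Adjoint measures with two different vanishing-viscosity limits

For `H = p²/2` on the circle there is a `C²` initial datum for which the adjoint measures
`μ^{ε,z}` have two different subsequential limits.
-/

namespace Pool.Agent.Results.MP_e9de1a_an.TwoLimits

open MeasureTheory Set Filter Topology Pool.Agent.R218.Adj

lemma ux_limit {q : ℝ} (hq : -2 ≤ q) {u : ℝ → ℝ → ℝ → ℝ}
    (hu : ∀ ε, 0 < ε → ε < 1 → ViscousSol quadH g0 ε (u ε)) :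
    Tendsto (fun k => Dx (u (rs q k ^ 4)) 0 1) atTop
      (𝓝 (-((1 / 4) * J (17 / 2 + 15 / 2 * Real.sin q) + (-1 / 4) * J 1) /
        (J (17 / 2 + 15 / 2 * Real.sin q) + J 1))) := by
  have h1 := gibbs_limit hq (f := fun _ => (1:ℝ)) continuous_const (fun y => by
    rw [abs_one]; have := abs_nonneg y; linarith)
  have h2 := gibbs_limit hq (f := fun y => y) continuous_id (fun y => by linarith)
  simp only [one_mul] at h1
  have hJ : 0 ≤ J (17 / 2 + 15 / 2 * Real.sin q) :=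
    integral_nonneg (fun x => (Real.exp_pos _).le)
  have hpos : 0 < J (17 / 2 + 15 / 2 * Real.sin q) + J 1 := by
    have := J_one_pos
    linarith
  have h3 := h2.neg.div h1 hpos.ne'
  refine h3.congr' ?_
  filter_upwards [h1.eventually (lt_mem_nhds hpos)] with k hk
  have hr := rs_pos q k
  have hr1 := rs_lt_one hq k
  have hε : 0 < rs q k ^ 4 := by positivity
  have hε1 : rs q k ^ 4 < 1 := pow_lt_one₀ hr.le hr1 (by norm_num)
  have hform := ux_formula contDiff_g0 g0_periodic hε (hu _ hε hε1)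
  have e : (rs q k)⁻¹ * ∫ y, y * gibbs g0 (rs q k ^ 4) y =
      - (Dx (u (rs q k ^ 4)) 0 1 * ((rs q k)⁻¹ * ∫ y, gibbs g0 (rs q k ^ 4) y)) := by
    have : ∫ y, y * gibbs g0 (rs q k ^ 4) y =
        - (Dx (u (rs q k ^ 4)) 0 1 * ∫ y, gibbs g0 (rs q k ^ 4) y) := by
      rw [hform, neg_neg]
    rw [this]
    ring
  simp only [Pi.div_apply]
  rw [e, neg_neg, mul_div_assoc, div_self hk.ne', mul_one]

/-- **Main theorem.** There are a convex Hamiltonian `H` with (A1), a `C²` datum `g`, a point `z`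
and a time `T > 0` such that for all families of solutions `u^ε`, `σ^{ε,z}` (`0 < ε < 1`) the
adjoint measures have two subsequential limits which differ on some continuous test function. -/
theorem result : ∃ (H : ℝ → ℝ → ℝ) (g : ℝ → ℝ) (z T : ℝ),
    Hamiltonian H ∧ ContDiff ℝ 2 g ∧ (∀ x, g (x + 1) = g x) ∧ 0 < T ∧
    ∀ u σ : ℝ → ℝ → ℝ → ℝ,
      (∀ ε, 0 < ε → ε < 1 → ViscousSol H g ε (u ε)) →
      (∀ ε, 0 < ε → ε < 1 → AdjointSol H ε z T (u ε) (σ ε)) →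
      ∃ (ψ : ℝ × ℝ × ℝ → ℝ) (ε₁ ε₂ : ℕ → ℝ) (a b : ℝ),
        Continuous ψ ∧ (∀ x p t, ψ (x + 1, p, t) = ψ (x, p, t)) ∧
        (∀ k, 0 < ε₁ k ∧ ε₁ k < 1) ∧ (∀ k, 0 < ε₂ k ∧ ε₂ k < 1) ∧
        Tendsto ε₁ atTop (𝓝 0) ∧ Tendsto ε₂ atTop (𝓝 0) ∧
        Tendsto (fun k => pairing T (u (ε₁ k)) (σ (ε₁ k)) ψ) atTop (𝓝 a) ∧
        Tendsto (fun k => pairing T (u (ε₂ k)) (σ (ε₂ k)) ψ) atTop (𝓝 b) ∧ a ≠ b := by
  refine ⟨quadH, g0, 0, 1, quadH_hamiltonian, contDiff_g0, g0_periodic, one_pos, ?_⟩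
  intro u σ hu hσ
  have hq1 : (-2 : ℝ) ≤ -(Real.pi / 2) := by
    have := Real.pi_le_four
    linarith
  have hq2 : (-2 : ℝ) ≤ Real.pi / 2 := by
    have := Real.pi_pos
    linarith
  have hmem : ∀ {q : ℝ}, -2 ≤ q → ∀ k, 0 < rs q k ^ 4 ∧ rs q k ^ 4 < 1 := fun {q} hq k =>
    ⟨by have := rs_pos q k; positivity, pow_lt_one₀ (rs_pos q k).le (rs_lt_one hq k) (by norm_num)⟩
  have htend : ∀ q : ℝ, Tendsto (fun k => rs q k ^ 4) atTop (𝓝 0) := fun q => by
    have := (rs_tendsto q).pow 4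
    simpa using this
  have hpair : ∀ {q : ℝ}, -2 ≤ q → ∀ k, pairing 1 (u (rs q k ^ 4)) (σ (rs q k ^ 4))
      (fun p => p.2.1) = Dx (u (rs q k ^ 4)) 0 1 := by
    intro q hq k
    obtain ⟨h0, h1⟩ := hmem hq k
    rw [pairing_momentum h0 one_pos (hu _ h0 h1) (hσ _ h0 h1), one_mul]
  refine ⟨fun p => p.2.1, fun k => rs (-(Real.pi / 2)) k ^ 4, fun k => rs (Real.pi / 2) k ^ 4,
    0, 1 / 12, by fun_prop, fun x p t => rfl, hmem hq1, hmem hq2, htend _, htend _, ?_, ?_,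
    by norm_num⟩
  · have h := ux_limit hq1 hu
    rw [Real.sin_neg, Real.sin_pi_div_two] at h
    have e : -((1 / 4) * J (17 / 2 + 15 / 2 * (-1)) + (-1 / 4) * J 1) /
        (J (17 / 2 + 15 / 2 * (-1)) + J 1) = 0 := by
      rw [show (17 / 2 + 15 / 2 * (-1) : ℝ) = 1 by norm_num]
      rw [show (1 / 4) * J 1 + (-1 / 4) * J 1 = 0 by ring]
      simp
    rw [e] at h
    exact h.congr (fun k => (hpair hq1 k).symm)
  · have h := ux_limit hq2 hu
    rw [Real.sin_pi_div_two] at h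
    have e : -((1 / 4) * J (17 / 2 + 15 / 2 * 1) + (-1 / 4) * J 1) /
        (J (17 / 2 + 15 / 2 * 1) + J 1) = 1 / 12 := by
      rw [show (17 / 2 + 15 / 2 * 1 : ℝ) = 16 by norm_num, J_sixteen]
      have := J_one_pos.ne'
      field_simp
      norm_num
    rw [e] at h
    exact h.congr (fun k => (hpair hq2 k).symm)

end Pool.Agent.Results.MP_e9de1a_an.TwoLimits
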